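import Pool.Agent.Y910.F.Defs

/-!
# Project FC: Kummer theory of the square roots of the `u i * (X - θ i)`
-/

set_option autoImplicit false

open Polynomial

namespace Pool.Agent.Y907.FC.FLIP

open Pool.Agent.Y910.F

section kummer

variable {K Ω ι : Type} [Field K] [Field Ω] [Algebra K Ω] [CharZero Ω]

/-- the elements `x + y * t` with `x, y` in `F`, for `t ^ 2` in `F` -/
def quad (F : IntermediateField K Ω) (t : Ω) (ht : t ^ 2 ∈ F) : IntermediateField K Ω where
  carrier := {z | ∃ x ∈ F, ∃ y ∈ F, z = x + y * t}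
  mul_mem' := by
    rintro _ _ ⟨x, hx, y, hy, rfl⟩ ⟨x', hx', y', hy', rfl⟩
    refine ⟨x * x' + y * y' * t ^ 2, F.add_mem (F.mul_mem hx hx') (F.mul_mem (F.mul_mem hy hy') ht),
      x * y' + y * x', F.add_mem (F.mul_mem hx hy') (F.mul_mem hy hx'), by ring⟩
  add_mem' := by
    rintro _ _ ⟨x, hx, y, hy, rfl⟩ ⟨x', hx', y', hy', rfl⟩
    exact ⟨x + x', F.add_mem hx hx', y + y', F.add_mem hy hy', by ring⟩
  algebraMap_mem' := fun r => ⟨algebraMap K Ω r, F.algebraMap_mem r, 0, F.zero_mem, by ring⟩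
  inv_mem' := by
    rintro z ⟨x, hx, y, hy, hz⟩
    by_cases hz0 : z = 0
    · refine ⟨0, F.zero_mem, 0, F.zero_mem, ?_⟩
      rw [hz0]
      simp
    by_cases hN : x ^ 2 - y ^ 2 * t ^ 2 = 0
    · have h1 : (x - y * t) * (x + y * t) = 0 := by rw [← hN]; ring
      rcases mul_eq_zero.1 h1 with h2 | h2
      · have h3 : z = 2 * x := by rw [hz]; linear_combination -h2
        refine ⟨(2 * x)⁻¹, F.inv_mem (F.mul_mem (by exact_mod_cast F.natCast_mem 2) hx), 0,
          F.zero_mem, ?_⟩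
        rw [h3]
        ring
      · exact absurd (hz.trans h2) hz0
    · have hNF : x ^ 2 - y ^ 2 * t ^ 2 ∈ F :=
        F.sub_mem (pow_mem hx 2) (F.mul_mem (pow_mem hy 2) ht)
      refine ⟨x * (x ^ 2 - y ^ 2 * t ^ 2)⁻¹, F.mul_mem hx (F.inv_mem hNF),
        -y * (x ^ 2 - y ^ 2 * t ^ 2)⁻¹, F.mul_mem (F.neg_mem hy) (F.inv_mem hNF), ?_⟩
      rw [hz] at hz0 ⊢
      rw [inv_eq_iff_eq_inv, eq_comm, inv_eq_iff_eq_inv, eq_comm]
      have h3 : x * (x ^ 2 - y ^ 2 * t ^ 2)⁻¹ + -y * (x ^ 2 - y ^ 2 * t ^ 2)⁻¹ * t =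
          (x - y * t) / ((x - y * t) * (x + y * t)) := by
        rw [show (x - y * t) * (x + y * t) = x ^ 2 - y ^ 2 * t ^ 2 by ring]
        rw [div_eq_mul_inv]
        ring
      have h4 : x - y * t ≠ 0 := by
        intro h5
        apply hN
        rw [show x ^ 2 - y ^ 2 * t ^ 2 = (x - y * t) * (x + y * t) by ring, h5, zero_mul]
      rw [h3, div_mul_cancel_left₀ h4]

open IntermediateField in
theorem kum [DecidableEq ι] (t : ι → Ω) (s : Finset ι)
    (ht : ∀ i ∈ s, ∃ a : K, t i ^ 2 = algebraMap K Ω a) :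
    ∀ c : Ω, (∃ a : K, c ^ 2 = algebraMap K Ω a) → c ∈ adjoin K (t '' (s : Set ι)) →
      ∃ I ⊆ s, ∃ a : K, c * ∏ i ∈ I, t i = algebraMap K Ω a := by
  induction s using Finset.induction_on with
  | empty =>
    intro c _ hc
    rw [Finset.coe_empty, Set.image_empty, adjoin_empty] at hc
    obtain ⟨a, ha⟩ := mem_bot.1 hc
    exact ⟨∅, Finset.Subset.refl _, a, by rw [Finset.prod_empty, mul_one, ha]⟩
  | insert b s hb ih =>
    intro c hc2 hc
    have ih' := ih (fun i hi => ht i (Finset.mem_insert_of_mem hi))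
    obtain ⟨a0, ha0⟩ := ht b (Finset.mem_insert_self _ _)
    obtain ⟨c0, hc0⟩ := hc2
    set F := adjoin K (t '' (s : Set ι)) with hF
    have htF : t b ^ 2 ∈ F := by rw [ha0]; exact F.algebraMap_mem a0
    have hc0F : c ^ 2 ∈ F := by rw [hc0]; exact F.algebraMap_mem c0
    have hle : adjoin K (t '' ((insert b s : Finset ι) : Set ι)) ≤ quad F (t b) htF := by
      rw [adjoin_le_iff]
      rintro _ ⟨i, hi, rfl⟩
      rw [Finset.coe_insert, Set.mem_insert_iff] at hi
      rcases hi with rfl | hi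
      · exact ⟨0, F.zero_mem, 1, F.one_mem, by ring⟩
      · exact ⟨t i, subset_adjoin K _ ⟨i, hi, rfl⟩, 0, F.zero_mem, by ring⟩
    obtain ⟨x, hx, y, hy, hxy⟩ := hle hc
    have key : c ∈ F ∨ ∃ y ∈ F, c = y * t b := by
      by_cases hx0 : x = 0
      · right
        exact ⟨y, hy, by rw [hxy, hx0, zero_add]⟩
      left
      by_cases hy0 : y = 0
      · rw [hxy, hy0, zero_mul, add_zero]
        exact hx
      have h2 : (2 : Ω) * x * y ≠ 0 := mul_ne_zero (mul_ne_zero two_ne_zero hx0) hy0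
      have h3 : t b = (c ^ 2 - x ^ 2 - y ^ 2 * t b ^ 2) / (2 * x * y) := by
        rw [eq_div_iff h2, hxy]
        ring
      have h4 : t b ∈ F := by
        rw [h3]
        exact F.div_mem (F.sub_mem (F.sub_mem hc0F (pow_mem hx 2))
          (F.mul_mem (pow_mem hy 2) htF))
          (F.mul_mem (F.mul_mem (by exact_mod_cast F.natCast_mem 2) hx) hy)
      rw [hxy]
      exact F.add_mem hx (F.mul_mem hy h4)
    rcases key with h | ⟨y, hy, hcy⟩
    · obtain ⟨I, hI, a, ha⟩ := ih' c ⟨c0, hc0⟩ h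
      exact ⟨I, hI.trans (Finset.subset_insert _ _), a, ha⟩
    · have h1 : c * t b ∈ F := by
        rw [hcy, mul_assoc, ← pow_two]
        exact F.mul_mem hy htF
      obtain ⟨I, hI, a, ha⟩ := ih' (c * t b) ⟨c0 * a0, by
        rw [mul_pow, hc0, ha0, map_mul]⟩ h1
      refine ⟨insert b I, Finset.insert_subset_insert b hI, a, ?_⟩
      rw [Finset.prod_insert (fun h => hb (hI h)), ← mul_assoc, ha]

end kummer

/-- nonempty products of different linear factors are not squares -/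
theorem nsq {K : Type} [Field K] [Algebra ℂ[X] K] [IsFractionRing ℂ[X] K] {d : ℕ}
    {θ u : Fin d → ℂ} (hθ : Function.Injective θ) (hu : ∀ i, u i ≠ 0) {I : Finset (Fin d)}
    {i : Fin d} (hi : i ∈ I) (z : K)
    (hz : z ^ 2 = algebraMap ℂ[X] K (∏ j ∈ I, (C (u j) * (X - C (θ j))))) : False := by
  classical
  obtain ⟨w, hw⟩ := IsIntegrallyClosed.exists_algebraMap_eq_of_isIntegral_pow (R := ℂ[X])
    (K := K) (x := z) (n := 2) (by norm_num) (by rw [hz]; exact isIntegral_algebraMap)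
  have h1 : w ^ 2 = ∏ j ∈ I, (C (u j) * (X - C (θ j))) := by
    apply IsFractionRing.injective ℂ[X] K
    rw [map_pow, hw, hz]
  rw [← Finset.mul_prod_erase I _ hi] at h1
  have h2 : (X - C (θ i)) ∣ w := by
    apply (prime_X_sub_C (θ i)).dvd_of_dvd_pow (n := 2)
    rw [h1]
    exact Dvd.dvd.mul_right (Dvd.intro_left _ rfl) _
  obtain ⟨w', hw'⟩ := h2
  have h3 : (X - C (θ i)) * ((X - C (θ i)) * w' ^ 2) =
      (X - C (θ i)) * (C (u i) * ∏ j ∈ I.erase i, (C (u j) * (X - C (θ j)))) := by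
    rw [hw'] at h1
    linear_combination h1
  have h4 := mul_left_cancel₀ (X_sub_C_ne_zero (θ i)) h3
  have h5 := congrArg (eval (θ i)) h4
  rw [eval_mul, eval_sub, eval_X, eval_C, sub_self, zero_mul, eval_mul, eval_C, eval_prod] at h5
  have h6 : ∏ j ∈ I.erase i, eval (θ i) (C (u j) * (X - C (θ j))) ≠ 0 := by
    rw [Finset.prod_ne_zero_iff]
    intro j hj
    rw [eval_mul, eval_C, eval_sub, eval_X, eval_C]
    refine mul_ne_zero (hu j) (sub_ne_zero.2 fun h => ?_)
    exact (Finset.ne_of_mem_erase hj) (hθ h).symm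
  exact (mul_ne_zero (hu i) h6) h5.symm

open IntermediateField in
theorem done : StFLIP := by
  classical
  intro K Ω _ _ _ _ _ _ d θ u t hθ hu ht i
  have hcΩ : CharZero Ω := by
    have h1 : Function.Injective ((algebraMap K Ω).comp (algebraMap ℂ[X] K)) :=
      (algebraMap K Ω).injective.comp (IsFractionRing.injective ℂ[X] K)
    exact charZero_of_injective_ringHom h1
  set F := adjoin K (t '' ((Finset.univ.erase i : Finset (Fin d)) : Set (Fin d))) with hF
  -- the square root is not in the field generated by the others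
  have hnot : t i ∉ F := by
    intro hmem
    obtain ⟨I, hI, a, ha⟩ := kum t (Finset.univ.erase i) (fun j _ => ⟨_, ht j⟩) (t i)
      ⟨_, ht i⟩ hmem
    have hiI : i ∉ I := fun h => (Finset.notMem_erase i _) (hI h)
    have h1 : ∏ j ∈ insert i I, t j = algebraMap K Ω a := by
      rw [Finset.prod_insert hiI, ha]
    have h2 : a ^ 2 = algebraMap ℂ[X] K (∏ j ∈ insert i I, (C (u j) * (X - C (θ j)))) := by
      apply (algebraMap K Ω).injective
      rw [map_pow, ← h1, ← Finset.prod_pow, map_prod, map_prod]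
      exact Finset.prod_congr rfl fun j _ => ht j
    exact nsq hθ hu (Finset.mem_insert_self i I) a h2
  have hti2 : t i ^ 2 ∈ F := by rw [ht i]; exact F.algebraMap_mem _
  have hirr : Irreducible (X ^ 2 - C (⟨t i ^ 2, hti2⟩ : F)) := by
    apply X_pow_sub_C_irreducible_of_prime Nat.prime_two
    intro b hb
    have h1 : (b : Ω) ^ 2 = t i ^ 2 := congrArg Subtype.val hb
    rcases sq_eq_sq_iff_eq_or_eq_neg.1 h1 with h2 | h2
    · exact hnot (h2 ▸ b.2)
    · apply hnot
      rw [eq_neg_iff_add_eq_zero, add_comm, ← eq_neg_iff_add_eq_zero] at h2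
      rw [h2]
      exact F.neg_mem b.2
  have hm1 := minpoly.eq_of_irreducible_of_monic hirr (x := t i) (by
    rw [map_sub, map_pow, aeval_X, aeval_C]
    exact sub_self _) (monic_X_pow_sub_C _ (by norm_num))
  have hm2 := minpoly.eq_of_irreducible_of_monic hirr (x := -t i) (by
    rw [map_sub, map_pow, aeval_X, aeval_C, neg_sq]
    exact sub_self _) (monic_X_pow_sub_C _ (by norm_num))
  have : Normal K Ω := inferInstance
  have hconj : IsConjRoot F (-t i) (t i) := hm2.symm.trans hm1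
  obtain ⟨σ, hσ⟩ := isConjRoot_iff_exists_algEquiv.1 hconj
  refine ⟨σ.restrictScalars K, hσ, fun j hj => ?_⟩
  have hjF : t j ∈ F := subset_adjoin K _ ⟨j, by simp [hj], rfl⟩
  exact σ.commutes ⟨t j, hjF⟩

end Pool.Agent.Y907.FC.FLIP
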